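import Pool.Agent.Q130.SA.Lower

set_option autoImplicit false

/-!
# Strong arboricity versus the colouring number

The inequality `ζ(G) ≤ col(G)` fails; the sharp inequality is `ζ(G) ≤ 2 col(G) - 2`.
-/

namespace Pool.Agent.Results.MP_5ca9a4_co.StrongArboricityVsCol

open Q130.SA

/-- For every `r ≥ 3`, the largest strong arboricity of a finite graph with colouring number `r` is
exactly `2 r - 2`.  (For `r ≥ 3` one has `2 r - 2 > r`.) -/
theorem result (r : ℕ) (hr : 3 ≤ r) :
    IsGreatest {z | ∃ (V : Type) (_ : Finite V) (G : SimpleGraph V), col G = r ∧ zeta G = z}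
      (2 * r - 2) ∧ r < 2 * r - 2 := by
  obtain ⟨d, rfl⟩ : ∃ d, r = d + 1 := ⟨r - 1, by omega⟩
  refine ⟨⟨⟨W d ((2 * d) ^ d * d + 1) ((2 * d) ^ d + 1), inferInstance, U _ _ _, ?_, ?_⟩, ?_⟩,
    by omega⟩
  · refine col_eq (by omega) ?_
    have h1 : 1 ≤ (2 * d) ^ d := Nat.one_le_pow _ _ (by omega)
    nlinarith
  · rw [zeta_eq (by omega) (by omega) (by omega)]
    omega
  · rintro z ⟨V, hV, G, h1, rfl⟩
    exact zeta_le G (d + 1) (by omega) h1

end Pool.Agent.Results.MP_5ca9a4_co.StrongArboricityVsCol
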